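import Pool.Agent.H20.TPMain

universe u

open Pool.Agent.H20.TP

namespace Pool.Agent.Results.MP_babce1_al.Fails

theorem result (F : Type u) [Field F] [CharZero F] : ∃ n : ℕ, 2 ≤ n ∧
    (∃ (T : TPAlg F) (x : Fin n → T.carrier), IsFree T x) ∧
    ∀ (T : TPAlg F) (x : Fin n → T.carrier), IsFree T x →
      ∃ f, ¬ Gen T (x '' {i | i.val + 1 < n}) f ∧
        ∃ g, g ≠ 0 ∧ Gen T (x '' {i | i.val + 1 < n}) g ∧ Idl T f g :=
  main F

end Pool.Agent.Results.MP_babce1_al.Fails
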